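import Pool.Agent.K1H35.LK.Defs

/-!
# T15: functions of finite type with values in finite `p`-groups
-/

set_option autoImplicit false

namespace Pool.Agent.K1H54.LK

open Pool.Agent.K1H35.LK

variable {A : Type} [AddCommGroup A]

/-- the difference over one double point -/
def dv (i : ℕ) (z : Br) (g : Br → A) (y : Br) : A := g (y * s i * z) - g (y * (s i)⁻¹ * z)

/-- all `m`-fold differences have the property `P` -/
def T (N : ℕ) (P : A → Prop) : ℕ → (Br → A) → Prop
  | 0, g => ∀ y ∈ BN N, P (g y)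
  | m + 1, g => ∀ i z, i + 1 < N → z ∈ BN N → T N P m (dv i z g)

lemma s_mem {N i : ℕ} (h : i + 1 < N) : s i ∈ BN N := Subgroup.subset_closure ⟨i, h, rfl⟩

lemma res_append (g : Br → A) (i : ℕ) (z : Br) : ∀ (S : List (ℕ × Br)) (y : Br),
    res g (S ++ [(i, z)]) y = res (dv i z g) S y
  | [], y => rfl
  | (j, w) :: S, y => by
    simp only [List.cons_append, res]
    rw [res_append g i z S, res_append g i z S]

lemma T_iff {N : ℕ} {P : A → Prop} : ∀ {m : ℕ} {g : Br → A},
    T N P m g ↔ ∀ S y, Sing N S y → S.length = m → P (res g S y)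
  | 0, g => by
    constructor
    · intro h S y hS h0
      rw [List.length_eq_zero_iff] at h0
      subst h0
      exact h y hS.1
    · intro h y hy
      exact h [] y ⟨hy, by simp⟩ rfl
  | m + 1, g => by
    constructor
    · intro h S y hS hl
      rcases List.eq_nil_or_concat S with h0 | ⟨S', ⟨i, z⟩, rfl⟩
      · subst h0; simp at hl
      · rw [List.concat_eq_append] at *
        rw [res_append]
        have h1 := hS.2 (i, z) (by simp)
        refine T_iff.1 (h i z h1.1 h1.2) S' y ⟨hS.1, fun p hp => hS.2 p (by simp [hp])⟩ ?_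
        simpa using hl
    · intro h i z hi hz
      refine T_iff.2 fun S y hS hl => ?_
      rw [← res_append]
      refine h _ y ⟨hS.1, fun p hp => ?_⟩ (by simp [hl])
      rcases List.mem_append.1 hp with h1 | h1
      · exact hS.2 p h1
      · rw [List.mem_singleton] at h1
        subst h1
        exact ⟨hi, hz⟩

lemma T_congr {N : ℕ} {P : A → Prop} : ∀ {m : ℕ} {g h : Br → A}, (∀ y ∈ BN N, g y = h y) →
    T N P m g → T N P m h
  | 0, g, h, e, hg => fun y hy => by rw [← e y hy]; exact hg y hy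
  | m + 1, g, h, e, hg => fun i z hi hz => T_congr (g := dv i z g) (fun y hy => by
      unfold dv
      rw [e _ ((BN N).mul_mem ((BN N).mul_mem hy (s_mem hi)) hz),
        e _ ((BN N).mul_mem ((BN N).mul_mem hy ((BN N).inv_mem (s_mem hi))) hz)]) (hg i z hi hz)

lemma T_trans {N : ℕ} {P : A → Prop} {w : Br} (hw : w ∈ BN N) : ∀ {m : ℕ} {g : Br → A},
    T N P m g → T N P m (fun y => g (y * w))
  | 0, g, hg => fun y hy => hg _ ((BN N).mul_mem hy hw)
  | m + 1, g, hg => fun i z hi hz => by
    have h := hg i (z * w) hi ((BN N).mul_mem hz hw)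
    have e : dv i z (fun y => g (y * w)) = dv i (z * w) g := by
      funext y
      unfold dv
      simp only [mul_assoc]
    rw [e]
    exact h

lemma T_add {N : ℕ} (J : AddSubgroup A) : ∀ {m : ℕ} {g h : Br → A},
    T N (· ∈ J) m g → T N (· ∈ J) m h → T N (· ∈ J) m (fun y => g y + h y)
  | 0, g, h, hg, hh => fun y hy => J.add_mem (hg y hy) (hh y hy)
  | m + 1, g, h, hg, hh => fun i z hi hz => by
    have e : dv i z (fun y => g y + h y) = fun y => dv i z g y + dv i z h y := by
      funext y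
      exact add_sub_add_comm _ _ _ _
    rw [e]
    exact T_add J (hg i z hi hz) (hh i z hi hz)

lemma T_all {N : ℕ} (J : AddSubgroup A) : ∀ {m : ℕ} {g : Br → A}, (∀ y, g y ∈ J) → T N (· ∈ J) m g
  | 0, _, hg => fun y _ => hg y
  | _ + 1, _, hg => fun _ _ _ _ => T_all J fun _ => J.sub_mem (hg _) (hg _)

lemma T_const {N : ℕ} (J : AddSubgroup A) {m : ℕ} (hm : 1 ≤ m) (c : A) : T N (· ∈ J) m fun _ => c := by
  obtain ⟨m, rfl⟩ : ∃ k, m = k + 1 := ⟨m - 1, by omega⟩
  intro i z _ _
  refine T_all J fun y => ?_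
  unfold dv
  rw [sub_self]
  exact J.zero_mem

section ring

variable {R : Type} [CommRing R]

/-- Leibniz rule -/
lemma T_mul {N : ℕ} {J : Ideal R} : ∀ {m : ℕ} {g h : Br → R},
    (∀ a b, a + b = m → ∃ J1 J2 : Ideal R, J1 * J2 ≤ J ∧ T N (· ∈ J1) a g ∧ T N (· ∈ J2) b h) →
    T N (· ∈ J) m (fun y => g y * h y)
  | 0, g, h, H => fun y hy => by
    obtain ⟨J1, J2, h1, h2, h3⟩ := H 0 0 rfl
    exact h1 (Ideal.mul_mem_mul (h2 y hy) (h3 y hy))
  | m + 1, g, h, H => fun i z hi hz => by
    have hs := s_mem hi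
    have e : dv i z (fun y => g y * h y) = fun y => g (y * (s i * z)) * dv i z h y
        + dv i z g y * h (y * ((s i)⁻¹ * z)) := by
      funext y
      unfold dv
      simp only [mul_assoc]
      ring
    rw [e]
    refine T_add J.toAddSubgroup (g := fun y => g (y * (s i * z)) * dv i z h y)
      (h := fun y => dv i z g y * h (y * ((s i)⁻¹ * z))) ?_ ?_
    · refine T_mul (g := fun y => g (y * (s i * z))) (h := dv i z h) fun a b hab => ?_
      obtain ⟨J1, J2, h1, h2, h3⟩ := H a (b + 1) (by omega)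
      exact ⟨J1, J2, h1, T_trans ((BN N).mul_mem hs hz) h2, h3 i z hi hz⟩
    · refine T_mul (g := dv i z g) (h := fun y => h (y * ((s i)⁻¹ * z))) fun a b hab => ?_
      obtain ⟨J1, J2, h1, h2, h3⟩ := H (a + 1) b (by omega)
      exact ⟨J1, J2, h1, h2 i z hi hz, T_trans ((BN N).mul_mem ((BN N).inv_mem hs) hz) h3⟩

/-- exponentials of functions of finite type -/
theorem T_exp {Q : Type} [AddCommGroup Q] (E : Q → R) (E0 : E 0 = 1) (Ea : ∀ a b, E (a + b) = E a * E b)
    (I : Ideal R) (hI : ∀ q, E q - 1 ∈ I) : ∀ k j : ℕ, ∃ D : ℕ, ∀ (N : ℕ) (u : Br → Q),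
      T N (· = 0) k u → ∀ m, D ≤ m → T N (· ∈ I ^ j) m (fun y => E (u y))
  | 0, j => by
    refine ⟨1, fun N u hu m hm => ?_⟩
    refine T_congr (g := fun _ => 1) (fun y hy => ?_) (T_const (I ^ j).toAddSubgroup hm 1)
    rw [hu y hy, E0]
  | k + 1, 0 => ⟨0, fun N u _ m _ => T_all (I ^ 0).toAddSubgroup fun y => by simp⟩
  | k + 1, j + 1 => by
    obtain ⟨D1, hD1⟩ := T_exp E E0 Ea I hI (k + 1) j
    obtain ⟨D2, hD2⟩ := T_exp E E0 Ea I hI k (j + 1)
    refine ⟨D1 + D2 + 2, fun N u hu m hm => ?_⟩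
    obtain ⟨m, rfl⟩ : ∃ l, m = l + 1 := ⟨m - 1, by omega⟩
    intro i z hi hz
    have hs := s_mem hi
    have e : dv i z (fun y => E (u y)) = fun y => E (u (y * ((s i)⁻¹ * z))) * (E (dv i z u y) + (-1)) := by
      funext y
      have h1 : u (y * s i * z) = u (y * ((s i)⁻¹ * z)) + dv i z u y := by
        unfold dv
        simp only [mul_assoc]
        abel
      have h2 : u (y * (s i)⁻¹ * z) = u (y * ((s i)⁻¹ * z)) := by rw [mul_assoc]
      show E (u (y * s i * z)) - E (u (y * (s i)⁻¹ * z)) = _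
      rw [h1, h2, Ea]
      ring
    rw [e]
    refine T_mul (g := fun y => E (u (y * ((s i)⁻¹ * z)))) (h := fun y => E (dv i z u y) + (-1))
      fun a b hab => ?_
    by_cases ha : D1 ≤ a
    · refine ⟨I ^ j, I, (pow_succ I j).ge, ?_, ?_⟩
      · exact hD1 N _ (T_trans ((BN N).mul_mem ((BN N).inv_mem hs) hz) hu) a ha
      · refine T_all I.toAddSubgroup fun y => ?_
        have := hI (dv i z u y)
        rwa [sub_eq_add_neg] at this
    · refine ⟨⊤, I ^ (j + 1), by rw [Ideal.top_mul], T_all (⊤ : Ideal R).toAddSubgroup fun y => by simp, ?_⟩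
      exact T_add (I ^ (j + 1)).toAddSubgroup (hD2 N _ (hu i z hi hz) b (by omega))
        (T_const _ (by omega) _)

end ring

lemma res_map {B : Type} [AddCommGroup B] (f : A →+ B) (g : Br → A) : ∀ (S : List (ℕ × Br)) (y : Br),
    res (fun b => f (g b)) S y = f (res g S y)
  | [], y => rfl
  | (i, z) :: S, y => by
    simp only [res]
    rw [res_map f g S, res_map f g S, map_sub]

theorem t_POLY : S_POLY := by
  intro p hp Q _ hfin ⟨e, he⟩ f n
  have : Fact p.Prime := ⟨hp⟩
  have := Fintype.ofFinite Q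
  let R := AddMonoidAlgebra (ZMod p) Q
  let E : Q → R := fun q => AddMonoidAlgebra.single q 1
  have E0 : E 0 = 1 := rfl
  have Ea : ∀ a b, E (a + b) = E a * E b := fun a b => by
    simp only [E]
    rw [AddMonoidAlgebra.single_mul_single, one_mul]
  let I : Ideal R := Ideal.span (Set.range fun q => E q - 1)
  have hI : ∀ q, E q - 1 ∈ I := fun q => Ideal.subset_span ⟨q, rfl⟩
  have : CharP R p := by
    have : Nontrivial R := inferInstance
    exact charP_of_injective_algebraMap (algebraMap (ZMod p) R).injective p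
  have Ep : ∀ (k : ℕ) (q : Q), E q ^ k = E (k • q) := by
    intro k
    induction k with
    | zero => intro q; rw [pow_zero, zero_smul, E0]
    | succ k ih => intro q; rw [pow_succ, ih, ← Ea, succ_nsmul]
  have hnil : IsNilpotent I := by
    have hfg : I.FG := ⟨(Set.toFinite (Set.range fun q => E q - 1)).toFinset, by
      rw [Set.Finite.coe_toFinset]⟩
    refine (Ideal.FG.isNilpotent_iff_le_nilradical hfg).2 ?_
    rw [Ideal.span_le]
    rintro _ ⟨q, rfl⟩
    refine mem_nilradical.2 ⟨p ^ e, ?_⟩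
    show (E q - 1) ^ p ^ e = 0
    rw [sub_pow_char_pow, one_pow, Ep]
    have : p ^ e • q = 0 := by rw [← he]; exact card_nsmul_eq_zero'
    rw [this, E0, sub_self]
  obtain ⟨L, hL⟩ := hnil
  obtain ⟨D, hD⟩ := T_exp E E0 Ea I hI (n + 1) L
  refine ⟨D, fun N u hu S y hS hl => ?_⟩
  have h1 := hD N u (T_iff.2 hu) D le_rfl
  have h2 := T_iff.1 h1 S y hS hl
  rw [hL] at h2
  have h3 : res (fun b => E (u b)) S y = 0 := by simpa using h2
  let F : R →+ ZMod p := AddMonoidAlgebra.liftNC (AddMonoidHom.id (ZMod p)) fun q => f q.toAdd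
  have hF : ∀ q, F (E q) = f q := fun q => by
    simp only [F, E]
    rw [AddMonoidAlgebra.liftNC_single]
    simp
  have h4 : res (fun b => F (E (u b))) S y = 0 := by rw [res_map, h3, map_zero]
  simpa only [hF] using h4

end Pool.Agent.K1H54.LK
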